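import Pool.Agent.TH444.ML.Defs

/-!
# Polynomial count of number fields (crude quantitative form of the theorem of Hermite)
-/

set_option autoImplicit false

open NumberField Module NumberField.InfinitePlace NumberField.mixedEmbedding ENNReal NNReal
  IntermediateField Polynomial

namespace Pool.Agent.TH979.J3100

open Pool.Agent.TH444.ML

variable {K : Type*} [Field K] [NumberField K]

/-- bound for the Minkowski bound -/
noncomputable def BB (D : ℕ) (Z : ℝ≥0) : ℝ≥0 := NNReal.sqrt Z * (2 : ℝ≥0) ^ D + 1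

theorem mink_lt {Z : ℝ≥0} (hK : ((|discr K| : ℤ) : ℝ) ≤ Z) :
    minkowskiBound K ↑1 < BB (finrank ℚ K) Z := by
  have : BB (finrank ℚ K) Z - 1 < BB (finrank ℚ K) Z := by
    simp_rw [BB, add_tsub_cancel_right, lt_add_iff_pos_right, zero_lt_one]
  refine lt_of_le_of_lt ?_ (coe_lt_coe.mpr this)
  rw [minkowskiBound, volume_fundamentalDomain_fractionalIdealLatticeBasis, BB,
    add_tsub_cancel_right, Units.val_one, FractionalIdeal.absNorm_one, Rat.cast_one,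
    ENNReal.ofReal_one, one_mul, mixedEmbedding.finrank, volume_fundamentalDomain_latticeBasis,
    coe_mul, ENNReal.coe_pow, coe_ofNat,
    show ((NNReal.sqrt Z : ℝ≥0) : ℝ≥0∞) = (1 : ℝ≥0∞) * NNReal.sqrt Z by rw [one_mul]]
  gcongr
  · exact pow_le_one₀ (by positivity) (by simp)
  · rw [← NNReal.coe_le_coe, coe_nnnorm, Int.norm_eq_abs, ← Int.cast_abs]
    exact hK

theorem coeff_le {B : ℝ} (x : 𝓞 K) (hx : ∀ w : InfinitePlace K, w x ≤ B) (i : ℕ) :
    ((|(minpoly ℤ (x : K)).coeff i| : ℤ) : ℝ) ≤ max B 1 ^ finrank ℚ K *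
      ((finrank ℚ K).choose (finrank ℚ K / 2) : ℝ) := by
  have hx' := x.isIntegral_coe
  refine (Eq.trans_le ?_ <| Embeddings.coeff_bdd_of_norm_le ((le_iff_le (x : K) _).mp hx) i)
  rw [minpoly.isIntegrallyClosed_eq_field_fractions' ℚ hx', coeff_map, eq_intCast,
          Int.norm_cast_rat, Int.norm_eq_abs, Int.cast_abs]

/-- bound for the coefficients -/
noncomputable def MM (D : ℕ) (Z : ℝ) : ℝ := (2 ^ (D + 2) * Z) ^ D * (D.choose (D / 2) : ℝ)

theorem BB_le (D : ℕ) {Z : ℝ≥0} (hZ : 1 ≤ Z) : (BB D Z : ℝ) ≤ 2 ^ (D + 1) * Z := by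
  have h1 : (NNReal.sqrt Z : ℝ) ≤ Z := by
    rw [Real.coe_sqrt]
    have hZ' : (1 : ℝ) ≤ Z := by exact_mod_cast hZ
    rw [Real.sqrt_le_left (by positivity)]
    nlinarith
  have hZ' : (1 : ℝ) ≤ Z := by exact_mod_cast hZ
  rw [BB, NNReal.coe_add, NNReal.coe_mul, NNReal.coe_pow, NNReal.coe_one]
  have h2 : (1 : ℝ) ≤ 2 ^ D := one_le_pow₀ (by norm_num)
  have h3 : ((2 : ℝ≥0) : ℝ) = 2 := by norm_num
  rw [h3, pow_succ]
  nlinarith [mul_le_mul_of_nonneg_right h1 (by positivity : (0 : ℝ) ≤ 2 ^ D), mul_le_mul h2 hZ' (by norm_num) (by positivity)]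

theorem exists_gen {Z : ℝ≥0} (hZ : 1 ≤ Z) (hK : ((|discr K| : ℤ) : ℝ) ≤ Z) :
    ∃ x : 𝓞 K, ℚ⟮(x : K)⟯ = ⊤ ∧
      ∀ i, ((|(minpoly ℤ (x : K)).coeff i| : ℤ) : ℝ) ≤ MM (finrank ℚ K) Z := by
  classical
  obtain ⟨B, hB⟩ : ∃ B : ℝ≥0, B = BB (finrank ℚ K) Z := ⟨_, rfl⟩
  have hlt : minkowskiBound K ↑1 < B := by rw [hB]; exact mink_lt hK
  have hBle : (B : ℝ) ≤ 2 ^ (finrank ℚ K + 1) * Z := by rw [hB]; exact BB_le _ hZ
  have hZ' : (1 : ℝ) ≤ Z := by exact_mod_cast hZ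
  have hpow : (1 : ℝ) ≤ 2 ^ (finrank ℚ K + 1) := one_le_pow₀ (by norm_num)
  have hB1 : (1 : ℝ) ≤ 2 ^ (finrank ℚ K + 1) * Z := by nlinarith
  have key : ∀ x : 𝓞 K, ∀ b : ℝ, b ≤ 2 ^ (finrank ℚ K + 2) * Z → (∀ w : InfinitePlace K, w x ≤ b) →
      ∀ i, ((|(minpoly ℤ (x : K)).coeff i| : ℤ) : ℝ) ≤ MM (finrank ℚ K) Z := by
    intro x b hb hx i
    refine (coeff_le x hx i).trans ?_
    rw [MM]
    gcongr
    refine max_le hb ?_
    rw [pow_succ]
    nlinarith
  obtain ⟨w₀⟩ := (inferInstance : Nonempty (InfinitePlace K))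
  by_cases hw₀ : IsReal w₀
  · have h1 : minkowskiBound K ↑1 < (convexBodyLTFactor K) * B := by
      calc minkowskiBound K 1 < B := hlt
        _ = 1 * B := by rw [one_mul]
        _ ≤ convexBodyLTFactor K * B := by gcongr; exact mod_cast one_le_convexBodyLTFactor K
    obtain ⟨x, hx₁, hx₂⟩ := exists_primitive_element_lt_of_isReal K hw₀ h1
    refine ⟨x, hx₁, key x (max B 1 : ℝ≥0) ?_ fun w => le_of_lt (hx₂ w)⟩
    rw [NNReal.coe_max]
    refine max_le ?_ ?_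
    · rw [pow_succ]; nlinarith
    · rw [pow_succ]; simp only [NNReal.coe_one]; nlinarith
  · rw [not_isReal_iff_isComplex] at hw₀
    have h1 : minkowskiBound K ↑1 < (convexBodyLT'Factor K) * B := by
      calc minkowskiBound K 1 < B := hlt
        _ = 1 * B := by rw [one_mul]
        _ ≤ convexBodyLT'Factor K * B := by gcongr; exact mod_cast one_le_convexBodyLT'Factor K
    obtain ⟨x, hx₁, hx₂⟩ := exists_primitive_element_lt_of_isComplex K hw₀ h1
    refine ⟨x, hx₁, key x _ ?_ fun w => le_of_lt (hx₂ w)⟩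
    rw [Real.sqrt_le_left (by positivity)]
    have h0 : (0 : ℝ) ≤ B := B.2
    have h2 : (2 : ℝ) ^ (finrank ℚ K + 2) * Z = 2 * (2 ^ (finrank ℚ K + 1) * Z) := by ring
    have h3 : (1 : ℝ) + B ≤ 2 * (2 ^ (finrank ℚ K + 1) * Z) := by linarith
    rw [h2]
    have h4 : ((1 : ℝ) + B) ^ 2 ≤ (2 * (2 ^ (finrank ℚ K + 1) * Z)) ^ 2 :=
      pow_le_pow_left₀ (by positivity) h3 2
    nlinarith

/-- the monic polynomials of degree `D` with coefficients bounded by `M` -/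
noncomputable def PP (D M : ℕ) : Finset ℤ[X] := by
  classical
  exact (Fintype.piFinset fun _ : Fin D => Finset.Icc (-(M : ℤ)) M).image
    fun c => X ^ D + ∑ i : Fin D, C (c i) * X ^ (i : ℕ)

theorem card_PP (D M : ℕ) : (PP D M).card ≤ (2 * M + 1) ^ D := by
  classical
  refine Finset.card_image_le.trans ?_
  rw [Fintype.card_piFinset_const, Int.card_Icc]
  refine le_of_eq ?_
  congr 1
  omega

theorem mem_PP {D M : ℕ} {f : ℤ[X]} (hf : f.Monic) (hd : f.natDegree = D)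
    (hc : ∀ i, |f.coeff i| ≤ M) : f ∈ PP D M := by
  classical
  rw [PP, Finset.mem_image]
  refine ⟨fun i => f.coeff i, ?_, ?_⟩
  · rw [Fintype.mem_piFinset]
    intro i
    rw [Finset.mem_Icc, ← abs_le]
    exact hc i
  · subst hd
    have h := hf.as_sum
    rw [Finset.sum_range] at h
    exact h.symm

theorem natDegree_PP {D M : ℕ} {f : ℤ[X]} (hf : f ∈ PP D M) : f.Monic ∧ f.natDegree = D := by
  classical
  rw [PP, Finset.mem_image] at hf
  obtain ⟨c, -, rfl⟩ := hf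
  have h : (∑ i : Fin D, C (c i) * X ^ (i : ℕ) : ℤ[X]).degree < (D : ℕ) := by
    refine (Polynomial.degree_sum_fin_lt _)
  refine ⟨monic_X_pow_add h, ?_⟩
  have h1 : (X ^ D + ∑ i : Fin D, C (c i) * X ^ (i : ℕ) : ℤ[X]).degree = (D : ℕ) := by
    rw [degree_add_eq_left_of_degree_lt, degree_X_pow]
    rw [degree_X_pow]
    exact h
  exact natDegree_eq_of_degree_eq_some h1

/-- the generators -/
noncomputable def TT (A : Type*) [Field A] (D M : ℕ) : Finset A := by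
  classical
  exact (PP D M).biUnion fun f => ((f.map (algebraMap ℤ A)).roots).toFinset

theorem card_TT (A : Type*) [Field A] (D M : ℕ) : (TT A D M).card ≤ (2 * M + 1) ^ D * D := by
  classical
  rw [TT]
  refine (Finset.card_biUnion_le_card_mul _ _ D fun f hf => ?_).trans
    (Nat.mul_le_mul_right _ (card_PP D M))
  refine (Multiset.toFinset_card_le _).trans ((card_roots' _).trans ?_)
  rw [← (natDegree_PP hf).2]
  exact natDegree_map_le

theorem mem_TT {A : Type} [Field A] [CharZero A] {D M : ℕ} {x : A} (hx : IsIntegral ℤ x)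
    (hd : (minpoly ℤ x).natDegree = D) (hc : ∀ i, |(minpoly ℤ x).coeff i| ≤ M) : x ∈ TT A D M := by
  classical
  rw [TT, Finset.mem_biUnion]
  refine ⟨minpoly ℤ x, mem_PP (minpoly.monic hx) hd hc, ?_⟩
  rw [Multiset.mem_toFinset, mem_roots]
  · rw [IsRoot.def, eval_map_algebraMap]
    exact minpoly.aeval ℤ x
  · exact ((minpoly.monic hx).map _).ne_zero

theorem exists_mem {A : Type} [Field A] [CharZero A] {D M : ℕ} {Z : ℝ≥0} (hZ : 1 ≤ Z)
    (hM : MM D Z ≤ M) (F : IntermediateField ℚ A) (hD : finrank ℚ F = D) (h : NumberField F)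
    (hF : ((|@discr F _ h| : ℤ) : ℝ) ≤ Z) : ∃ x ∈ TT A D M, F = ℚ⟮x⟯ := by
  obtain ⟨x, hx, hc⟩ := exists_gen (K := F) hZ hF
  have hxi : IsIntegral ℤ (x : F) := x.isIntegral_coe
  have hmin : minpoly ℤ ((x : F) : A) = minpoly ℤ (x : F) :=
    minpoly.algebraMap_eq (algebraMap F A).injective (x : F)
  refine ⟨((x : F) : A), ?_, ?_⟩
  · refine mem_TT ?_ ?_ ?_
    · exact hxi.map (IsScalarTower.toAlgHom ℤ F A)
    · rw [hmin, ← hD]
      have h1 := (Field.primitive_element_iff_minpoly_natDegree_eq ℚ (x : F)).1 hx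
      rw [minpoly.isIntegrallyClosed_eq_field_fractions' ℚ hxi,
        (minpoly.monic hxi).natDegree_map] at h1
      exact h1
    · intro i
      rw [hmin]
      have h2 := (hc i).trans ((le_of_eq (by rw [hD])).trans hM)
      exact_mod_cast h2
  · have hx1 : (IntermediateField.adjoin ℚ {(x : F)} : @IntermediateField ℚ F _ _
        (IntermediateField.algebra' F)) = ⊤ := by
      convert! hx
    have hx' := congrArg IntermediateField.lift hx1
    rw [IntermediateField.lift_top, IntermediateField.lift_adjoin, Set.image_singleton] at hx'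
    exact hx'.symm

theorem hermite : Pool.Agent.TH444.ML.Hermite := by
  classical
  intro A _ _ D
  refine ⟨(2 * ((2 ^ (D + 2)) ^ D * (D.choose (D / 2) : ℝ) + 1) + 1) ^ D * D, fun Z hZ => ?_⟩
  obtain ⟨Z', rfl⟩ : ∃ Z' : ℝ≥0, (Z' : ℝ) = Z := ⟨⟨Z, by linarith⟩, rfl⟩
  have hZ' : 1 ≤ Z' := by exact_mod_cast hZ
  obtain ⟨M, hM⟩ : ∃ M : ℕ, M = ⌈MM D Z'⌉₊ := ⟨_, rfl⟩
  have hM1 : MM D Z' ≤ M := by rw [hM]; exact Nat.le_ceil _
  have hM0 : (0 : ℝ) ≤ MM D Z' := by rw [MM]; positivity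
  have hM2 : (M : ℝ) ≤ MM D Z' + 1 := by rw [hM]; exact (Nat.ceil_lt_add_one hM0).le
  have hsub : {F : IntermediateField ℚ A | Module.finrank ℚ F = D ∧ ∃ h : NumberField F,
      ((|@discr F _ h| : ℤ) : ℝ) ≤ Z'} ⊆ (((TT A D M).image fun x => ℚ⟮x⟯ :
        Finset (IntermediateField ℚ A)) : Set (IntermediateField ℚ A)) := by
    rintro F ⟨hD, h, hF⟩
    obtain ⟨x, hx, hFx⟩ := exists_mem hZ' hM1 F hD h hF
    rw [Finset.mem_coe, Finset.mem_image]
    exact ⟨x, hx, hFx.symm⟩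
  refine ⟨(Finset.finite_toSet _).subset hsub, ?_⟩
  have h1 : Set.ncard {F : IntermediateField ℚ A | Module.finrank ℚ F = D ∧ ∃ h : NumberField F,
      ((|@discr F _ h| : ℤ) : ℝ) ≤ Z'} ≤ (2 * M + 1) ^ D * D := by
    refine (Set.ncard_le_ncard hsub (Finset.finite_toSet _)).trans ?_
    rw [Set.ncard_coe_finset]
    exact Finset.card_image_le.trans (card_TT A D M)
  have h2 : (2 * (M : ℝ) + 1) ≤
      (2 * ((2 ^ (D + 2)) ^ D * (D.choose (D / 2) : ℝ) + 1) + 1) * (Z' : ℝ) ^ D := by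
    have h3 : (1 : ℝ) ≤ (Z' : ℝ) ^ D := one_le_pow₀ hZ
    have h4 : MM D Z' = ((2 ^ (D + 2)) ^ D * (D.choose (D / 2) : ℝ)) * (Z' : ℝ) ^ D := by
      rw [MM, mul_pow]; ring
    rw [h4] at hM2
    have h5 : (0 : ℝ) ≤ (2 ^ (D + 2)) ^ D * (D.choose (D / 2) : ℝ) := by positivity
    nlinarith
  calc ((Set.ncard {F : IntermediateField ℚ A | Module.finrank ℚ F = D ∧ ∃ h : NumberField F,
      ((|@discr F _ h| : ℤ) : ℝ) ≤ Z'} : ℕ) : ℝ) ≤ (((2 * M + 1) ^ D * D : ℕ) : ℝ) := by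
        exact_mod_cast h1
    _ = (2 * (M : ℝ) + 1) ^ D * D := by push_cast; ring
    _ ≤ ((2 * ((2 ^ (D + 2)) ^ D * (D.choose (D / 2) : ℝ) + 1) + 1) * (Z' : ℝ) ^ D) ^ D * D := by
        gcongr
    _ = _ := by rw [mul_pow, ← pow_mul, sq]; ring

end Pool.Agent.TH979.J3100
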